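import Pool.Agent.Helper92.OR.Geo

/-!
# Project OR: the geometric facts (`Geo`) in the orthogonal case, dimension at least five
-/

set_option autoImplicit false

namespace Pool.Agent.Helper92.OR

open Pool.Agent.Helper81.UT Pool.Agent.Helper92.UN

variable {K V : Type*} [Field K] [StarRing K] [AddCommGroup V] [Module K V] {h : V → V → K}

theorem prop_of_le (hh : Herm h) {w w₁ : V} (hw : w ≠ 0) (h1 : perpSp hh w ≤ perpSp hh w₁) :
    ∃ b : K, w₁ = b • w := by
  obtain ⟨e, he⟩ := exists_right hh hw 1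
  have hew : h e w = 1 := by rw [← hh.symm, he, star_one]
  refine ⟨star (h e w₁), ?_⟩
  apply sub_eq_zero.1
  apply hh.nondeg
  intro x
  rw [hh.eq_zero_comm, sub_right92 hh, hh.smul_right, star_star]
  have h3 : x - h x w • e ∈ perpSp hh w := by
    rw [mem_perpSp, sub_left92 hh, hh.smul, hew, mul_one, sub_self]
  have h4 := h1 h3
  rw [mem_perpSp, sub_left92 hh, hh.smul] at h4
  linear_combination h4

variable [Finite K] [FiniteDimensional K V]

theorem perp_le (hh : Herm h) (hid : ∀ x : K, star x = x) (h2 : (2 : K) ≠ 0)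
    (hdim : 4 ≤ Module.finrank K V) (hc : 3 < Nat.card K ∨ 5 ≤ Module.finrank K V)
    {w w₁ : V} (hw : w ≠ 0) (H : ∀ y, Un h y → h y w = 0 → h y w₁ = 0) :
    perpSp hh w ≤ perpSp hh w₁ := by
  by_cases hww : h w w = 0
  · -- a hyperbolic pair
    obtain ⟨e, he⟩ := exists_right hh hw 1
    obtain ⟨f, hf⟩ : ∃ f, f = e - (h e e / 2) • w := ⟨_, rfl⟩
    have hwf : h w f = 1 := by
      rw [hf, sub_right92 hh, hh.smul_right, hww, he]
      ring
    have hfw : h f w = 1 := by rw [symm_id hh hid, hwf]
    have hff : h f f = 0 := by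
      have hew : h e w = 1 := by rw [symm_id hh hid, he]
      rw [hf, sub_left92 hh, sub_right92 hh, sub_right92 hh, hh.smul, hh.smul, hh.smul_right,
        hh.smul_right, hww, he, hew, hid]
      field_simp
      ring
    obtain ⟨p, hp⟩ : ∃ p, p = w + f := ⟨_, rfl⟩
    obtain ⟨q, hq⟩ : ∃ q, q = w - f := ⟨_, rfl⟩
    have hpp : h p p ≠ 0 := by
      have h3 : h p p = 2 := by
        rw [hp, hh.add, hh.add_right, hh.add_right, hww, hwf, hfw, hff]
        ring
      rw [h3]
      exact h2
    have hqp : h q p = 0 := by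
      rw [hp, hq, sub_left92 hh, hh.add_right, hh.add_right, hww, hwf, hfw, hff]
      ring
    have hqq : h q q ≠ 0 := by
      have h3 : h q q = -2 := by
        rw [hq, sub_left92 hh, sub_right92 hh, sub_right92 hh, hww, hwf, hfw, hff]
        ring
      rw [h3]
      exact neg_ne_zero.2 h2
    have hpq : ∀ y, h y p = 0 → h y q = 0 → h y w = 0 := by
      intro y e1 e3
      rw [hp, hh.add_right] at e1
      rw [hq, sub_right92 hh] at e3
      have e4 : (2 : K) * h y w = 0 := by linear_combination e1 + e3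
      exact (mul_eq_zero.1 e4).resolve_left h2
    have hp1 := herm_perp hh hpp
    have hqq' : (fun x y : perpSp hh p => h (x : V) (y : V)) ⟨q, hqp⟩ ⟨q, hqp⟩ ≠ 0 := hqq
    have hq1 := herm_perp hp1 hqq'
    have d1 := finrank_perp hh hpp
    have d3 := finrank_perp hp1 hqq'
    -- vectors of the complement
    have hz : ∀ z : perpSp hp1 (⟨q, hqp⟩ : perpSp hh p), h ((z : perpSp hh p) : V) w = 0 := by
      intro z
      exact hpq _ (z : perpSp hh p).2 z.2
    have htop := units_span hq1 hid h2 (by omega) (by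
      rcases hc with hc | hc
      · exact Or.inl hc
      · right
        omega)
      (((perpSp hh w₁).comap (Submodule.subtype _)).comap (Submodule.subtype _))
      (fun z hz1 => H _ hz1 (hz z))
    obtain ⟨z1, hz1⟩ := exists_val hq1 hid h2 (by omega) 1
    have hwN : h w w₁ = 0 := by
      have e1 : Un h ((z1 : perpSp hh p) : V) := hz1
      have e3 : Un h (w + ((z1 : perpSp hh p) : V)) := by
        have e4 : h w ((z1 : perpSp hh p) : V) = 0 := hh.eq_zero_comm.1 (hz z1)
        rw [Un, hh.add, hh.add_right, hh.add_right, hww, hz z1, e4, e1]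
        ring
      have e4 := H _ e1 (hz z1)
      have e5 := H _ e3 (by rw [hh.add, hww, hz z1, add_zero])
      rw [hh.add, e4, add_zero] at e5
      exact e5
    intro y hy
    have hy' : h y w = 0 := hy
    -- the component in the complement
    obtain ⟨y', hy1⟩ : ∃ y', y' = y - h y f • w := ⟨_, rfl⟩
    have e1 : h y' w = 0 := by
      rw [hy1, sub_left92 hh, hh.smul, hy', hww]
      ring
    have e3 : h y' f = 0 := by
      rw [hy1, sub_left92 hh, hh.smul, hwf]
      ring
    have e4 : h y' p = 0 := by rw [hp, hh.add_right, e1, e3, add_zero]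
    have e5 : h y' q = 0 := by rw [hq, sub_right92 hh, e1, e3, sub_zero]
    have e6 : (⟨⟨y', e4⟩, e5⟩ : perpSp hp1 (⟨q, hqp⟩ : perpSp hh p)) ∈
        (((perpSp hh w₁).comap (Submodule.subtype _)).comap (Submodule.subtype _)) := by
      rw [htop]
      exact Submodule.mem_top
    have e7 : h y' w₁ = 0 := e6
    have e8 : y = y' + h y f • w := by
      rw [hy1]
      module
    rw [mem_perpSp, e8, hh.add, hh.smul, e7, hwN, mul_zero, add_zero]
  · have hd := finrank_perp hh hww
    have htop := units_span (herm_perp hh hww) hid h2 (by omega) (Or.inr (by omega))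
      ((perpSp hh w₁).comap (Submodule.subtype _)) (fun z hz1 => H _ hz1 z.2)
    intro y hy
    have e6 : (⟨y, hy⟩ : perpSp hh w) ∈ ((perpSp hh w₁).comap (Submodule.subtype _)) := by
      rw [htop]
      exact Submodule.mem_top
    exact e6

theorem eq_zero_of_unitO (hh : Herm h) (hid : ∀ x : K, star x = x) (h2 : (2 : K) ≠ 0)
    (hdim : 3 ≤ Module.finrank K V) {x : V} (H : ∀ y, Un h y → h y x = 0) : x = 0 := by
  by_contra hx
  obtain ⟨y, hy1, hy2⟩ := exists_vecO hh hid h2 hdim hx (β := 1) (Or.inl one_ne_zero) 1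
  have h3 := H y hy2
  rw [symm_id hh hid, hy1] at h3
  exact one_ne_zero h3

theorem prop_of_relO (hh : Herm h) (hid : ∀ x : K, star x = x) (h2 : (2 : K) ≠ 0)
    (hdim : 4 ≤ Module.finrank K V) (hc : 3 < Nat.card K ∨ 5 ≤ Module.finrank K V) {w w₁ : V}
    (R0 : ∀ y, Un h y → (h y w₁ = 0 ↔ h y w = 0))
    (R1 : ∀ y, Un h y → (nm (h y w₁) = 1 ↔ nm (h y w) = 1)) :
    ∃ b : K, nm b = 1 ∧ w₁ = b • w := by
  by_cases hw : w = 0
  · refine ⟨1, nm_one, ?_⟩
    rw [hw, smul_zero]
    apply eq_zero_of_unitO hh hid h2 (by omega)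
    intro y hy
    rw [R0 y hy, hw, hh.zero_right]
  · obtain ⟨b, hb⟩ := prop_of_le hh hw (perp_le hh hid h2 hdim hc hw fun y hy => (R0 y hy).2)
    refine ⟨b, ?_, hb⟩
    obtain ⟨y, hy1, hy2⟩ := exists_vecO hh hid h2 (by omega) hw (β := 1) (Or.inl one_ne_zero) 1
    have h3 : h y w = 1 := by rw [← hh.symm, hy1, star_one]
    have h4 := (R1 y hy2).2 (by rw [h3, nm_one])
    rw [hb, hh.smul_right, h3, mul_one, nm_star] at h4
    exact h4

theorem stepBO (hh : Herm h) (hid : ∀ x : K, star x = x) (h2 : (2 : K) ≠ 0)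
    (hdim : 5 ≤ Module.finrank K V) (hc : 3 < Nat.card K ∨ 6 ≤ Module.finrank K V)
    {P P' : V → V} (hP : LU h P P') {a : V} (ha : Un h a)
    (hfix : ∀ y, Un h y → h y a = 0 → Eqv K (P y) y) {x : V} (hx : Un h x) :
    Eqv K (P x) x ∨ Eqv K (P x) (rf h a x) := by
  have haa : h a a ≠ 0 := by
    rw [ha]
    exact one_ne_zero
  have hx1 : Un h (P x) := hP.un x hx
  have hxw : ∀ (x y : V), h y a = 0 → h y (x - h x a • a) = h y x := by
    intro x y hy
    rw [sub_right92 hh, hh.smul_right, hy, mul_zero, sub_zero]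
  have hd := finrank_perp hh haa
  obtain ⟨b, hb, hbw⟩ := prop_of_relO (herm_perp hh haa) hid h2 (by omega) (by
      rcases hc with hc | hc
      · exact Or.inl hc
      · right
        omega)
    (w := ⟨_, sub_mem_perp1 hh ha x⟩) (w₁ := ⟨_, sub_mem_perp1 hh ha (P x)⟩)
    (by
      intro y hy
      have hy' : Un h (y : V) := hy
      have h3 := hfix y hy' y.2
      show h (y : V) (P x - h (P x) a • a) = 0 ↔ h (y : V) (x - h x a • a) = 0
      rw [hxw _ _ y.2, hxw _ _ y.2, ← hP.perp y x hy' hx, hh.zero_congr h3 (Eqv.refl (P x))])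
    (by
      intro y hy
      have hy' : Un h (y : V) := hy
      have h3 := hfix y hy' y.2
      show nm (h (y : V) (P x - h (P x) a • a)) = 1 ↔ nm (h (y : V) (x - h x a • a)) = 1
      rw [hxw _ _ y.2, hxw _ _ y.2, ← hP.one y x hy' hx, hh.nm_congr h3 (Eqv.refl (P x))])
  have hbw' : P x - h (P x) a • a = b • (x - h x a • a) := congrArg Subtype.val hbw
  have hb0 : b ≠ 0 := by
    rintro rfl
    rw [nm_zero] at hb
    exact zero_ne_one hb
  have e1 : P x = b • ((b⁻¹ * h (P x) a) • a + (x - h x a • a)) := by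
    rw [smul_add, ← hbw', smul_smul, ← mul_assoc, mul_inv_cancel₀ hb0, one_mul]
    module
  have hE : Eqv K (P x) ((b⁻¹ * h (P x) a) • a + (x - h x a • a)) := eqv_of_smul hb e1
  obtain ⟨c, hcd⟩ : ∃ c, c = b⁻¹ * h (P x) a := ⟨_, rfl⟩
  rw [← hcd] at hE
  have h4 := un_congr hh hx1 hE
  have h5 : h (x - h x a • a) a = 0 := sub_mem_perp1 hh ha x
  have h6 : x = h x a • a + (x - h x a • a) := by module
  have h7 := norm_split hh ha h5 c
  have h8 := norm_split hh ha h5 (h x a)
  rw [← h6] at h8
  rw [h4] at h7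
  rw [hx] at h8
  have h9 : nm c = nm (h x a) := add_right_cancel (h7.symm.trans h8)
  rw [nm_id hid, nm_id hid, mul_self_eq_mul_self_iff] at h9
  rcases h9 with h9 | h9
  · left
    rw [h9, ← h6] at hE
    exact hE
  · right
    have h10 : c • a + (x - h x a • a) = rf h a x := by
      rw [h9, rf]
      module
    rw [h10] at hE
    exact hE

theorem coreO (hh : Herm h) (hid : ∀ x : K, star x = x) (h2 : (2 : K) ≠ 0)
    (hdim : 5 ≤ Module.finrank K V) (hc : 3 < Nat.card K ∨ 6 ≤ Module.finrank K V)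
    {T T' : V → V} (hT : LU h T T') {a x : V} (ha : Un h a) (hx : Un h x) :
    Eqv K (T (rf h a x)) (rf h (T a) (T x)) := by
  have hTa := hT.un a ha
  have hTx := hT.un x hx
  have hP : LU h (fun x => T' (rf h (T a) (T x))) (fun x => T' (rf h (T a) (T x))) :=
    (hT.symm hh).comp (lu_comp_rf hh hT hTa)
  have hPfix : ∀ y, Un h y → h y a = 0 → Eqv K (T' (rf h (T a) (T y))) y := by
    intro y hy hya
    rw [rf_perp ((hT.perp y a hy ha).2 hya)]
    exact hT.left y hy
  have hrT := un_rf hh hTa hTx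
  have hrx := un_rf hh ha hx
  have key : Eqv K (T' (rf h (T a) (T x))) (rf h a x) := by
    rcases stepBO hh hid h2 hdim hc hP ha hPfix hx with h3 | h3
    · -- then `T a`, `T x` commute
      have h4 : Eqv K (rf h (T a) (T x)) (T x) :=
        (hT.right _ hrT).symm.trans ((hT.eqv _ _ (hT.un' _ hrT) hx).2 h3)
      have h5 : Eqv K (rf h a x) x := by
        obtain ⟨m, hm, h6⟩ := h4
        rcases nm_eq_one hid hm with rfl | rfl
        · -- orthogonal
          have h7 : (2 * h (T x) (T a)) • T a = 0 := by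
            rw [one_smul, rf] at h6
            have h8 : (2 * h (T x) (T a)) • T a = T x - (T x - (2 * h (T x) (T a)) • T a) := by
              module
            rw [h8, ← h6, sub_self]
          have h8 : h (T x) (T a) = 0 := by
            rcases smul_eq_zero.1 h7 with h9 | h9
            · exact (mul_eq_zero.1 h9).resolve_left h2
            · exact absurd h9 (ne_zero_of_unit hh hTa)
          rw [rf_perp ((hT.perp x a hx ha).1 h8)]
          exact Eqv.refl x
        · -- equal
          have h7 : T x = h (T x) (T a) • T a := by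
            have h8 : (2 : K) • T x = (2 : K) • h (T x) (T a) • T a := by
              have h9 : (2 : K) • T x = (-1 : K) • (rf h (T a) (T x)) + T x := by
                rw [← h6]
                module
              rw [h9, rf]
              module
            exact smul_right_injective V h2 h8
          have h8 : nm (h (T x) (T a)) = 1 := by
            have h9 := hTx
            rw [Un, h7, hh.smul, hh.smul_right, hTa, mul_one] at h9
            exact h9
          have h9 : Eqv K a x := (hT.eqv a x ha hx).1 ⟨_, h8, h7⟩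
          have h10 := rf_congr hh (Eqv.refl a) h9
          rw [rf_self ha] at h10
          exact (h10.symm.trans (eqv_neg a).symm).trans h9
      exact h3.trans h5.symm
    · exact h3
  exact ((hT.eqv _ _ (hT.un' _ hrT) hrx).2 key).symm.trans (hT.right _ hrT)

omit [Finite K] [FiniteDimensional K V] in
/-- Unit vectors with `h u v = 1 / 2` are exchanged by a reflection. -/
theorem swapO (hh : Herm h) (hid : ∀ x : K, star x = x) (h2 : (2 : K) ≠ 0) {u v : V}
    (hu : Un h u) (hv : Un h v) (huv : h u v = 2⁻¹) :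
    Un h (u - v) ∧ rf h (u - v) u = v := by
  have hvu : h v u = 2⁻¹ := by rw [symm_id hh hid, huv]
  have h22 : (2 : K) * 2⁻¹ = 1 := mul_inv_cancel₀ h2
  constructor
  · rw [Un, sub_left92 hh, sub_right92 hh, sub_right92 hh, hu, hv, huv, hvu]
    linear_combination -h22
  · have h3 : 2 * h u (u - v) = 1 := by
      rw [sub_right92 hh, hu, huv]
      linear_combination -h22
    rw [rf, h3, one_smul]
    module

/-- Two unit vectors have a common neighbour, up to a sign. -/
theorem linkO (hh : Herm h) (hid : ∀ x : K, star x = x) (h2 : (2 : K) ≠ 0)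
    (hdim : 5 ≤ Module.finrank K V) {u v : V} (hu : Un h u) (hv : Un h v)
    (huv : ¬ Eqv K u v) :
    ∃ z v', Un h z ∧ Un h v' ∧ Eqv K v v' ∧ h u z = 2⁻¹ ∧ h z v' = 2⁻¹ := by
  have h22 : (2 : K) * 2⁻¹ = 1 := mul_inv_cancel₀ h2
  have huu : h u u ≠ 0 := by
    rw [hu]
    exact one_ne_zero
  have hd := finrank_perp hh huu
  -- the sign
  obtain ⟨v', hv', hvv', hγ⟩ : ∃ v', Un h v' ∧ Eqv K v v' ∧ h v' u ≠ 1 := by
    by_cases h3 : h v u = 1
    · refine ⟨-v, un_congr hh hv (eqv_neg v), eqv_neg v, ?_⟩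
      rw [hh.neg_left, h3]
      intro h4
      apply h2
      linear_combination -h4
    · exact ⟨v, hv, Eqv.refl v, h3⟩
  have hw0 : (⟨_, sub_mem_perp1 hh hu v'⟩ : perpSp hh u) ≠ 0 := by
    intro h0
    apply huv
    have h1 : v' - h v' u • u = 0 := congrArg Subtype.val h0
    have h3 : v' = h v' u • u := sub_eq_zero.1 h1
    have h4 : nm (h v' u) = 1 := by
      have h5 := hv'
      rw [Un, h3, hh.smul, hh.smul_right, hu, mul_one] at h5
      exact h5
    have h6 : Eqv K u v' := ⟨_, h4, h3⟩
    exact h6.trans hvv'.symm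
  obtain ⟨y, hy1, hy2⟩ := exists_vecO (herm_perp hh huu) hid h2 (by omega) hw0
    (β := (1 - h v' u) * 2⁻¹) (Or.inl (mul_ne_zero (sub_ne_zero.2 (Ne.symm hγ)) (inv_ne_zero h2)))
    (1 - 2⁻¹ * 2⁻¹)
  have hy1' : h (v' - h v' u • u) (y : V) = (1 - h v' u) * 2⁻¹ := hy1
  have hy2' : h (y : V) (y : V) = 1 - 2⁻¹ * 2⁻¹ := hy2
  have hyu : h (y : V) u = 0 := y.2
  have huy : h u (y : V) = 0 := hh.eq_zero_comm.1 hyu
  have hhalf : star ((2 : K)⁻¹) = 2⁻¹ := hid _
  refine ⟨(2⁻¹ : K) • u + (y : V), v', ?_, hv', hvv', ?_, ?_⟩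
  · rw [Un, norm_comb1 hh, hu, huy, hy2', mul_zero, trc, star_zero, nm_id hid]
    ring
  · rw [hh.add_right, hh.smul_right, hu, huy, hhalf]
    ring
  · have h3 : h v' (y : V) = (1 - h v' u) * 2⁻¹ := by
      rw [sub_left92 hh, hh.smul, huy] at hy1'
      linear_combination hy1'
    rw [symm_id hh hid, hh.add_right, hh.smul_right, h3, hhalf]
    ring

omit [Finite K] [FiniteDimensional K V] in
theorem same_scalarO (hh : Herm h) (hid : ∀ x : K, star x = x) (h2 : (2 : K) ≠ 0)
    (g : V ≃ₗ[K] V) (H : ∀ u, Un h u → Eqv K u (g u)) {u v : V} (hu : Un h u) (hv : Un h v)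
    (huv : h u v = 2⁻¹) {m : K} (hm : g u = m • u) : g v = m • v := by
  obtain ⟨n, -, hn⟩ := H v hv
  obtain ⟨h3, -⟩ := swapO hh hid h2 hu hv huv
  obtain ⟨k, -, hk⟩ := H _ h3
  have hvu : h v u = 2⁻¹ := by rw [symm_id hh hid, huv]
  have h22 : (2 : K) * 2⁻¹ = 1 := mul_inv_cancel₀ h2
  have hk' : (m - k) • u = (n - k) • v := by
    rw [map_sub, hm, hn] at hk
    have h4 : (m - k) • u = (m • u - n • v) - k • (u - v) + (n - k) • v := by module
    rw [h4, hk]
    module
  -- compare the values
  have h4 := congrArg (fun y => h y u) hk'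
  have h5 := congrArg (fun y => h y v) hk'
  simp only [hh.smul] at h4 h5
  rw [hu, hvu] at h4
  rw [huv, hv] at h5
  have h6 : (2 : K) * (m - k) = n - k := by linear_combination 2 * h4 + (n - k) * h22
  have h7 : m - k = 2 * (n - k) := by linear_combination 2 * h5 - (m - k) * h22
  -- if `m = k` then `n = k`; otherwise `3 = 0` and then the vector is zero
  have h8 : m = k := by
    by_contra hne
    have h9 : m - k ≠ 0 := sub_ne_zero.2 hne
    have h10 : u = (2 : K) • v := by
      have h11 : (m - k) • u = (m - k) • (2 : K) • v := by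
        rw [hk', ← h6, smul_smul]
        congr 1
        ring
      exact smul_right_injective V h9 h11
    have h11 := hu
    rw [Un, h10, hh.smul, hh.smul_right, hv, star_two] at h11
    have h12 := huv
    rw [h10, hh.smul, hv] at h12
    have h13 : (4 : K) = 1 := by linear_combination h11
    -- `4 = 1` and `u = 2 v`: so `u = -v`, and `h u v = -1 = 1 / 2`; then `u - v = -2 v = v`
    have h14 : Un h (u - v) := h3
    have h15 : u - v = v := by
      rw [h10]
      module
    have h16 : g v = k • v := by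
      rw [← h15, hk]
    have h17 : n = k := by
      have h18 : (n - k) • v = 0 := by
        rw [sub_smul, ← hn, h16, sub_self]
      rcases smul_eq_zero.1 h18 with h19 | h19
      · exact sub_eq_zero.1 h19
      · exact absurd h19 (ne_zero_of_unit hh hv)
    rw [h17, sub_self] at h7
    rw [mul_zero] at h7
    exact h9 h7
  have h9 : n = k := by
    rw [h8, sub_self, mul_zero] at h6
    exact (sub_eq_zero.1 h6.symm)
  rw [hn, h9, h8]

theorem scalarO (hh : Herm h) (hid : ∀ x : K, star x = x) (h2 : (2 : K) ≠ 0)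
    (hdim : 5 ≤ Module.finrank K V) (g : V ≃ₗ[K] V) (H : ∀ u, Un h u → Eqv K u (g u)) :
    ∃ m : K, ∀ x, g x = m • x := by
  obtain ⟨u, hu0⟩ := exists_val hh hid h2 (by omega) 1
  obtain ⟨m, -, hm⟩ := H u hu0
  refine ⟨m, ?_⟩
  have key : ∀ v, Un h v → g v = m • v := by
    intro v hv
    by_cases huv : Eqv K u v
    · obtain ⟨d, -, rfl⟩ := huv
      rw [map_smul, hm, smul_comm]
    · obtain ⟨z, v', hz, hv', hE, h3, h4⟩ := linkO hh hid h2 hdim hu0 hv huv
      have h5 := same_scalarO hh hid h2 g H hz hv' h4 (same_scalarO hh hid h2 g H hu0 hz h3 hm)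
      obtain ⟨d, -, hd⟩ := hE.symm
      rw [hd, map_smul, h5, smul_comm]
  let N : Submodule K V :=
    { carrier := {x | g x = m • x}
      add_mem' := by
        intro x y hx hy
        show g (x + y) = m • (x + y)
        rw [map_add, hx, hy, smul_add]
      zero_mem' := by
        show g 0 = m • 0
        rw [map_zero, smul_zero]
      smul_mem' := by
        intro d x hx
        show g (d • x) = m • d • x
        rw [map_smul, hx, smul_comm] }
  have h3 := units_span hh hid h2 (by omega) (Or.inr (by omega)) N key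
  intro x
  have h4 : x ∈ N := by
    rw [h3]
    exact Submodule.mem_top
  exact h4

theorem geo_orth (hh : Herm h) (hid : ∀ x : K, star x = x) (h2 : (2 : K) ≠ 0)
    (hdim : 5 ≤ Module.finrank K V) (hc : 3 < Nat.card K ∨ 6 ≤ Module.finrank K V) :
    Geo h where
  core T T' hT _ a x ha hx := coreO hh hid h2 hdim hc hT ha hx
  scal g H := scalarO hh hid h2 hdim g H
  move u v hu hv := by
    by_cases huv : Eqv K u v
    · refine ⟨v, v, v, hv, hv, hv, ?_⟩
      rw [rf_rf hh hv]
      have h1 := rf_congr hh (Eqv.refl v) huv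
      rw [rf_self hv] at h1
      exact (h1.trans (eqv_neg v).symm).symm
    · obtain ⟨z, v', hz, hv', hE, h3, h4⟩ := linkO hh hid h2 hdim hu hv huv
      obtain ⟨a1, b1⟩ := swapO hh hid h2 hu hz h3
      obtain ⟨a2, b2⟩ := swapO hh hid h2 hz hv' h4
      refine ⟨_, _, v', a1, a2, hv', ?_⟩
      rw [b1, b2, rf_self hv']
      exact hE.trans (eqv_neg v')

end Pool.Agent.Helper92.OR
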