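import Pool.Agent.Helper92.OR.Core

/-!
# Project OR: the theorem for a simple group of isometries which contains the elements `-r_v`

For a nondegenerate symmetric bilinear form on a space of odd dimension `2 m + 1` over `F_q`, `q` odd, the
simple group `Ω (2 m + 1, q)` contains the elements `-r_v`, `B v v = c`, for one of the two classes of
`c` modulo squares.
-/

set_option autoImplicit false

namespace Pool.Agent.Helper92.OR

open Pool.Agent.Helper81.UT Pool.Agent.Helper92.UN

variable {K V : Type*} [Field K] [AddCommGroup V] [Module K V]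

/-- `g` is the negative of the reflection of a vector `v` with `B v v = c`. -/
def NegRefl (B : LinearMap.BilinForm K V) (c : K) (g : V ≃ₗ[K] V) : Prop :=
  ∃ v, B v v = c ∧ ∀ x, g x = (2 * B x v / c) • v - x

/-- In a simple group of isometries which contains a multiple of a reflection the scalars are trivial. -/
theorem scalars_trivial [StarRing K] [FiniteDimensional K V] (h2 : (2 : K) ≠ 0) {h : V → V → K}
    (hh : Herm h) (hdim : 2 ≤ Module.finrank K V) {G : Subgroup (V ≃ₗ[K] V)} [IsSimpleGroup G]
    {v : V} (hv : Un h v) (a : G)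
    (ha : ∃ d : K, ∀ x, (a : V ≃ₗ[K] V) x = d • rf h v x) (g : G)
    (hg : ∃ d : K, ∀ x, (g : V ≃ₗ[K] V) x = d • x) : g = 1 := by
  let Z : Subgroup G :=
    { carrier := {g | ∃ d : K, ∀ x, (g : V ≃ₗ[K] V) x = d • x}
      mul_mem' := by
        rintro g g' ⟨d, hd⟩ ⟨d', hd'⟩
        refine ⟨d * d', fun x => ?_⟩
        show (g : V ≃ₗ[K] V) ((g' : V ≃ₗ[K] V) x) = _
        rw [hd', map_smul, hd, smul_smul, mul_comm]
      one_mem' := ⟨1, fun x => (one_smul K x).symm⟩
      inv_mem' := by
        rintro g ⟨d, hd⟩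
        refine ⟨d⁻¹, fun x => ?_⟩
        obtain ⟨y, hy⟩ : ∃ y, y = ((g⁻¹ : G) : V ≃ₗ[K] V) x := ⟨_, rfl⟩
        have h1 : x = d • y := by
          rw [← hd, hy]
          exact ((g : V ≃ₗ[K] V).apply_symm_apply x).symm
        rw [← hy]
        by_cases hd0 : d = 0
        · have h3 : ∀ z : V, z = 0 := by
            intro z
            have h4 := hd z
            rw [hd0, zero_smul] at h4
            exact (LinearEquiv.map_eq_zero_iff _).1 h4
          rw [h3 y, h3 x, smul_zero]
        · rw [h1, smul_smul, inv_mul_cancel₀ hd0, one_smul] }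
  have hZn : Z.Normal := by
    constructor
    rintro z ⟨d, hd⟩ g
    refine ⟨d, fun x => ?_⟩
    show (g : V ≃ₗ[K] V) ((z : V ≃ₗ[K] V) (((g⁻¹ : G) : V ≃ₗ[K] V) x)) = _
    rw [hd, map_smul]
    congr 1
    exact (g : V ≃ₗ[K] V).apply_symm_apply x
  rcases hZn.eq_bot_or_eq_top with h1 | h1
  · have h3 : g ∈ Z := hg
    rw [h1] at h3
    exact Subgroup.mem_bot.1 h3
  · exfalso
    have h3 : a ∈ Z := by
      rw [h1]
      exact Subgroup.mem_top a
    obtain ⟨d, hd⟩ := h3
    obtain ⟨d', hd'⟩ := ha
    obtain ⟨w, hw0, hwv⟩ := exists_perp1 hh hdim v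
    have hv0 := ne_zero_of_unit hh hv
    have h4 := hd w
    have h5 := hd v
    rw [hd', rf_perp hwv] at h4
    rw [hd', rf_self hv] at h5
    have h6 : d' = d := by
      have h7 : (d' - d) • w = 0 := by rw [sub_smul, h4, sub_self]
      exact sub_eq_zero.1 ((smul_eq_zero.1 h7).resolve_right hw0)
    have h7 : d = 0 := by
      have h8 : (2 * d) • v = 0 := by
        have h9 : (2 * d) • v = d • v - d' • -v := by
          rw [h6]
          module
        rw [h9, h5, sub_self]
      exact (mul_eq_zero.1 ((smul_eq_zero.1 h8).resolve_right hv0)).resolve_left h2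
    have h8 := hd v
    rw [h7, zero_smul] at h8
    exact hv0 ((LinearEquiv.map_eq_zero_iff _).1 h8)

theorem omega [Finite K] [FiniteDimensional K V] (h2 : (2 : K) ≠ 0)
    (hdim : 5 ≤ Module.finrank K V) (hc : 3 < Nat.card K ∨ 6 ≤ Module.finrank K V)
    (B : LinearMap.BilinForm K V) (hB : B.IsSymm) (hnd : B.Nondegenerate)
    (c : K) (hc0 : c ≠ 0) (G : Subgroup (V ≃ₗ[K] V)) [IsSimpleGroup G]
    (hG : ∀ g ∈ G, ∀ x y, B (g x) (g y) = B x y)
    (hall : ∀ g : V ≃ₗ[K] V, NegRefl B c g → g ∈ G)
    (a : G) (ha : NegRefl B c a) :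
    orderOf a = 2 ∧ (∀ b : G, IsConj a b ↔ NegRefl B c b) ∧
    ∀ τ : Equiv.Perm {b : G // IsConj a b},
      (∀ x y, x ≠ y → orderOf ((τ x : G) * τ y) = orderOf ((x : G) * y)) →
      ∃ φ : MulAut G, φ '' {b | IsConj a b} = {b | IsConj a b} ∧ ∀ x, φ x.1 = (τ x).1 := by
  let _ : StarRing K := starRingOfComm
  have hid : ∀ x : K, star x = x := fun x => rfl
  have hci : c⁻¹ ≠ 0 := inv_ne_zero hc0
  obtain ⟨h, hdef⟩ : ∃ h : V → V → K, h = fun x y => c⁻¹ * B x y := ⟨_, rfl⟩
  have hval : ∀ x y, h x y = c⁻¹ * B x y := by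
    intro x y
    rw [hdef]
  have hh : Herm h :=
    { add := by
        intro x y z
        rw [hval, hval, hval, map_add, LinearMap.add_apply]
        ring
      smul := by
        intro d x y
        rw [hval, hval, map_smul, LinearMap.smul_apply, smul_eq_mul]
        ring
      symm := by
        intro x y
        rw [hid, hval, hval, hB.eq]
      nondeg := by
        intro x hx
        apply hnd.1 x
        intro y
        have h1 := hx y
        rw [hval] at h1
        exact (mul_eq_zero.1 h1).resolve_left hci }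
  have hUn : ∀ u, Un h u ↔ B u u = c := by
    intro u
    rw [Un, hval, inv_mul_eq_one₀ hc0, eq_comm]
  have hrf : ∀ u x, (-1 : K) • rf h u x = (2 * B x u / c) • u - x := by
    intro u x
    rw [rf, hval]
    have h3 : 2 * (c⁻¹ * B x u) = 2 * B x u / c := by ring
    rw [h3]
    module
  have hgeo := geo_orth hh hid h2 hdim hc
  have hVfin : Finite V := Module.finite_of_finite K
  have hEfin : Finite (V ≃ₗ[K] V) :=
    Finite.of_injective (fun g : V ≃ₗ[K] V => (g : V → V)) DFunLike.coe_injective
  -- an element which is a reflection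
  obtain ⟨v, hv, hav⟩ := ha
  have hv0 : v ≠ 0 := by
    rintro rfl
    rw [map_zero] at hv
    exact hc0 hv.symm
  have hvu : Un h v := (hUn v).2 hv
  -- scalars are trivial
  have hscal : ∀ g : G, (∃ d : K, ∀ x, (g : V ≃ₗ[K] V) x = d • x) → g = 1 :=
    scalars_trivial h2 hh (by omega) hvu a ⟨-1, fun x => by rw [hav, hrf]⟩
  have hy : Hy h G.subtype (MonoidHom.id G) :=
    { hh := hh
      h2 := h2
      geo := hgeo
      hdim := by omega
      iso := by
        intro g x y
        rw [hval, hval]
        congr 1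
        exact hG g g.2 x y
      surj := Function.surjective_id
      ker := by
        intro g
        constructor
        · intro h1
          have h3 : g = 1 := h1
          refine ⟨1, fun x => ?_⟩
          rw [h3, one_smul]
          rfl
        · intro h1
          exact hscal g h1
      refl := by
        intro u hu
        have h3 : NegRefl B c ((LinearEquiv.neg K : V ≃ₗ[K] V) * Rf hh hu) := by
          refine ⟨u, (hUn u).1 hu, fun x => ?_⟩
          rw [← hrf, neg_smul, one_smul]
          rfl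
        exact ⟨⟨_, hall _ h3⟩, -1, fun x => by
          rw [neg_smul, one_smul]
          rfl⟩ }
  have hDf : ∀ b : G, b ∈ Df h G.subtype (MonoidHom.id G) ↔ NegRefl B c b := by
    intro b
    constructor
    · rintro ⟨g, u, hu, ⟨d, hd⟩, hgb⟩
      have hgb' : g = b := hgb
      subst hgb'
      have hd1 := nm_of_isR hy hu hd
      rcases nm_eq_one hid hd1 with rfl | rfl
      · -- then `-1` is in `G`
        exfalso
        obtain ⟨g', hg'⟩ : ∃ g' : G, ∀ x, (g' : V ≃ₗ[K] V) x = (-1 : K) • rf h u x := by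
          have h3 : NegRefl B c ((LinearEquiv.neg K : V ≃ₗ[K] V) * Rf hh hu) := by
            refine ⟨u, (hUn u).1 hu, fun x => ?_⟩
            rw [← hrf, neg_smul, one_smul]
            rfl
          exact ⟨⟨_, hall _ h3⟩, fun x => by
            rw [neg_smul, one_smul]
            rfl⟩
        have h3 : g * g' = 1 := by
          apply hscal
          refine ⟨-1, fun x => ?_⟩
          show (g : V ≃ₗ[K] V) ((g' : V ≃ₗ[K] V) x) = _
          have hd' : ∀ x, (g : V ≃ₗ[K] V) x = (1 : K) • rf h u x := hd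
          rw [hg', map_smul, hd', rf_rf hh hu, one_smul]
        have h4 : (g : V ≃ₗ[K] V) ((g' : V ≃ₗ[K] V) v) = v := by
          have h5 := congrArg (fun k : G => (k : V ≃ₗ[K] V) v) h3
          exact h5
        have hd' : ∀ x, (g : V ≃ₗ[K] V) x = (1 : K) • rf h u x := hd
        rw [hg', map_smul, hd', rf_rf hh hu, one_smul] at h4
        have h5 : (2 : K) • v = 0 := by
          have h6 : (2 : K) • v = v - (-1 : K) • v := by module
          rw [h6, h4, sub_self]
        rcases smul_eq_zero.1 h5 with h6 | h6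
        · exact h2 h6
        · exact hv0 h6
      · refine ⟨u, (hUn u).1 hu, fun x => ?_⟩
        rw [← hrf]
        exact hd x
    · rintro ⟨u, hu, hbu⟩
      refine ⟨b, u, (hUn u).2 hu, ⟨-1, fun x => ?_⟩, rfl⟩
      rw [hrf]
      exact hbu x
  have haD : a ∈ Df h G.subtype (MonoidHom.id G) := (hDf a).2 ⟨v, hv, hav⟩
  have hset : ∀ b : G, b ∈ Df h G.subtype (MonoidHom.id G) ↔ IsConj a b :=
    fun b => Df_isConj hy haD b
  refine ⟨Df_order hy haD, fun b => (hset b).symm.trans (hDf b), fun τ hτ => ?_⟩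
  let e : Df h G.subtype (MonoidHom.id G) ≃ {b : G // IsConj a b} := Equiv.subtypeEquivRight hset
  obtain ⟨φ, hφ⟩ := final hy (Df_closure hy haD) ((e.trans τ).trans e.symm) (by
    intro x y hxy
    exact hτ (e x) (e y) fun h => hxy (e.injective h))
  have hφ' : ∀ x : {b : G // IsConj a b}, φ x.1 = (τ x).1 := by
    intro x
    have h3 := hφ (e.symm x)
    have h4 : ((e.trans τ).trans e.symm) (e.symm x) = e.symm (τ x) := by
      show e.symm (τ (e (e.symm x))) = _
      rw [Equiv.apply_symm_apply]
    rw [h4] at h3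
    exact h3
  refine ⟨φ, ?_, hφ'⟩
  ext b
  constructor
  · rintro ⟨x, hx, rfl⟩
    rw [hφ' ⟨x, hx⟩]
    exact (τ ⟨x, hx⟩).2
  · intro hb
    refine ⟨(τ.symm ⟨b, hb⟩).1, (τ.symm ⟨b, hb⟩).2, ?_⟩
    rw [hφ', Equiv.apply_symm_apply]

end Pool.Agent.Helper92.OR
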