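import Pool.Agent.Helper92.UN.Fin

/-!
# Project OR (MP_0d9fdb_al): the reflections of an orthogonal group, odd characteristic

The involution `star` is trivial (`hid`), so `Herm h` says that `h` is a nondegenerate symmetric bilinear
form. `Un h u`: `h u u = 1`; `Eqv K u v`: `v = u` or `v = -u`. `units_span`: the vectors `u` with `h u u = 1`
span the space if its dimension is at least three, or at least two and `K` has more than three elements.
-/

set_option autoImplicit false

namespace Pool.Agent.Helper92.OR

open Pool.Agent.Helper81.UT Pool.Agent.Helper92.UN Polynomial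

variable {K V : Type*} [Field K] [StarRing K] [AddCommGroup V] [Module K V] {h : V → V → K}

theorem nm_id (hid : ∀ x : K, star x = x) (x : K) : nm x = x * x := by rw [nm, hid]

theorem trc_id (hid : ∀ x : K, star x = x) (x : K) : trc x = 2 * x := by rw [trc, hid, two_mul]

theorem nm_eq_one (hid : ∀ x : K, star x = x) {x : K} (hx : nm x = 1) : x = 1 ∨ x = -1 := by
  rw [nm_id hid, mul_self_eq_one_iff] at hx
  exact hx

theorem symm_id (hh : Herm h) (hid : ∀ x : K, star x = x) (x y : V) : h x y = h y x := by
  rw [← hh.symm x y, hid]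

omit [StarRing K] in
/-- A nondegenerate binary form represents everything. -/
theorem bin [Finite K] (h2 : (2 : K) ≠ 0) {p q : K} (hp : p ≠ 0) (hq : q ≠ 0) (s : K) :
    ∃ x y : K, p * (x * x) + q * (y * y) = s := by
  have : Fintype K := Fintype.ofFinite _
  have hch : ringChar K ≠ 2 := by
    intro h0
    have h1 : ((2 : ℕ) : K) = 0 := (ringChar.spec _ 2).2 (by rw [h0])
    apply h2
    exact_mod_cast h1
  obtain ⟨x, y, hxy⟩ := FiniteField.exists_root_sum_quadratic (R := K)
    (f := C p * X ^ 2 - C s) (g := C q * X ^ 2)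
    (by
      have h1 : degree (C p * X ^ 2 : K[X]) = 2 := by rw [degree_C_mul hp, degree_X_pow]; rfl
      rw [degree_sub_C (by rw [h1]; decide), h1])
    (by rw [degree_C_mul hq, degree_X_pow]; rfl) (FiniteField.odd_card_of_char_ne_two hch)
  rw [eval_sub, eval_mul, eval_pow, eval_X, eval_C, eval_C, eval_mul, eval_pow, eval_X, eval_C] at hxy
  exact ⟨x, y, by linear_combination hxy⟩

theorem exists_val [Finite K] [FiniteDimensional K V] (hh : Herm h) (hid : ∀ x : K, star x = x)
    (h2 : (2 : K) ≠ 0) (hdim : 2 ≤ Module.finrank K V) (s : K) : ∃ u, h u u = s := by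
  obtain ⟨x0, hx0, -⟩ := exists_perp1 hh hdim (0 : V)
  obtain ⟨z, hz⟩ := exists_non hh h2 hx0
  obtain ⟨z', hz1, hz2⟩ := exists_non_perp hh h2 hdim hz
  obtain ⟨x, y, hxy⟩ := bin h2 hz hz2 s
  refine ⟨x • z + y • z', ?_⟩
  have h3 : h z z' = 0 := hh.eq_zero_comm.1 hz1
  rw [norm_comb hh, h3, mul_zero, trc, star_zero, nm_id hid, nm_id hid]
  linear_combination hxy

/-- Prescribed values. -/
theorem exists_vecO [Finite K] [FiniteDimensional K V] (hh : Herm h) (hid : ∀ x : K, star x = x)
    (h2 : (2 : K) ≠ 0) (hdim : 3 ≤ Module.finrank K V) {w : V} (hw : w ≠ 0) {β : K}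
    (hβ : β ≠ 0 ∨ h w w ≠ 0) (s : K) : ∃ y, h w y = β ∧ h y y = s := by
  by_cases hww : h w w = 0
  · have hβ' : β ≠ 0 := hβ.resolve_right fun h0 => h0 hww
    obtain ⟨w', hw'⟩ := exists_right hh hw 1
    refine ⟨((s - β * β * h w' w') / (2 * β)) • w + β • w', ?_, ?_⟩
    · rw [hh.add_right, hh.smul_right, hh.smul_right, hww, hw', hid β]
      ring
    · rw [norm_comb hh, hww, hw', trc_id hid, hid β, nm_id hid β]
      field_simp
      ring
  · have hdw : 2 ≤ Module.finrank K (perpSp hh w) := by
      have := finrank_perp hh hww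
      omega
    obtain ⟨u, hu⟩ := exists_val (herm_perp hh hww) hid h2 hdw (s - β * β / h w w)
    have hu' : h (u : V) (u : V) = s - β * β / h w w := hu
    have huw : h (u : V) w = 0 := u.2
    have hwu : h w (u : V) = 0 := hh.eq_zero_comm.1 huw
    refine ⟨(β / h w w) • w + (u : V), ?_, ?_⟩
    · rw [hh.add_right, hh.smul_right, hwu, hid, div_mul_cancel₀ _ hww, add_zero]
    · rw [norm_comb1 hh, hwu, mul_zero, trc, star_zero, hu', nm_id hid]
      field_simp
      ring

/-- A nonisotropic vector is a difference of two unit vectors, in dimension at least three. -/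
theorem mem_of_units3 [Finite K] [FiniteDimensional K V] (hh : Herm h)
    (hid : ∀ x : K, star x = x) (h2 : (2 : K) ≠ 0) (hdim : 3 ≤ Module.finrank K V)
    (N : Submodule K V) (HN : ∀ y, Un h y → y ∈ N) {y : V} (hy : h y y ≠ 0) : y ∈ N := by
  have hy0 : y ≠ 0 := by
    rintro rfl
    exact hy (hh.zero_left 0)
  obtain ⟨z, hz1, hz2⟩ := exists_vecO hh hid h2 hdim hy0 (β := -(h y y) / 2) (Or.inr hy) 1
  have hyz : Un h ((1 : K) • y + z) := by
    rw [Un, norm_comb1 hh, nm_one, hz1, hz2, trc_id hid]
    field_simp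
    ring
  have h3 := N.sub_mem (HN _ hyz) (HN z hz2)
  have h4 : (1 : K) • y + z - z = y := by module
  rw [h4] at h3
  exact h3

/-- Unit vectors span. -/
theorem units_span [Finite K] [FiniteDimensional K V] (hh : Herm h)
    (hid : ∀ x : K, star x = x) (h2 : (2 : K) ≠ 0) (hdim : 2 ≤ Module.finrank K V)
    (hc : 3 < Nat.card K ∨ 3 ≤ Module.finrank K V) (N : Submodule K V)
    (HN : ∀ y, Un h y → y ∈ N) : N = ⊤ := by
  rw [eq_top_iff]
  obtain ⟨x0, hx0, -⟩ := exists_perp1 hh hdim (0 : V)
  obtain ⟨z0, hz0⟩ := exists_non hh h2 hx0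
  rcases hc with hc | hc
  · -- `K` has more than three elements
    obtain ⟨z, hz⟩ := exists_val hh hid h2 hdim 1
    have hzz : h z z ≠ 0 := by
      rw [hz]
      exact one_ne_zero
    have hzN := HN z hz
    have key : ∀ y ∈ perpSp hh z, h y y ≠ 0 → y ∈ N := by
      intro y hyz hyy
      have hyz' : h y z = 0 := hyz
      obtain ⟨d, hd⟩ : ∃ d, d = h y y := ⟨_, rfl⟩
      rw [← hd] at hyy
      -- a suitable `m`
      obtain ⟨m, hm0, hm⟩ : ∃ m : K, m ≠ 0 ∧ 1 + d * (m * m) ≠ 0 := by
        by_contra hno
        push Not at hno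
        have h3 := hno 1 one_ne_zero
        have h4 : d = -1 := by linear_combination h3
        have h5 : ∀ m : K, m = 0 ∨ m = 1 ∨ m = -1 := by
          intro m
          by_cases hm : m = 0
          · exact Or.inl hm
          · right
            have h6 := hno m hm
            rw [h4] at h6
            rw [← mul_self_eq_one_iff]
            linear_combination -h6
        have h6 : Nat.card K ≤ 3 := by
          have : Fintype K := Fintype.ofFinite _
          have : DecidableEq K := Classical.decEq K
          rw [Nat.card_eq_fintype_card, ← Finset.card_univ]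
          have h7 : (Finset.univ : Finset K) ⊆ {0, 1, -1} := by
            intro m _
            rcases h5 m with h8 | h8 | h8 <;> simp [h8]
          exact (Finset.card_le_card h7).trans (Finset.card_le_three)
        omega
      have hb : (2 * m / (1 + d * (m * m))) ≠ 0 := div_ne_zero (mul_ne_zero h2 hm0) hm
      have hu : Un h ((2 * m / (1 + d * (m * m))) • y + ((1 - d * (m * m)) / (1 + d * (m * m))) • z) := by
        rw [Un, norm_comb hh, hyz', hz, ← hd, mul_zero, trc, star_zero, nm_id hid, nm_id hid]
        obtain ⟨e, he⟩ : ∃ e, e = 1 + d * (m * m) := ⟨_, rfl⟩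
        rw [← he] at hm ⊢
        have h5 : 2 * m / e * (2 * m / e) * d + (0 + 0) +
            (1 - d * (m * m)) / e * ((1 - d * (m * m)) / e) * 1 =
            (2 * m * (2 * m) * d + (1 - d * (m * m)) * (1 - d * (m * m))) / (e * e) := by ring
        rw [h5, div_eq_one_iff_eq (mul_ne_zero hm hm), he]
        ring
      have h3 := HN _ hu
      have h4 : (2 * m / (1 + d * (m * m))) • y ∈ N := by
        have h5 := N.sub_mem h3 (N.smul_mem ((1 - d * (m * m)) / (1 + d * (m * m))) hzN)
        rwa [add_sub_cancel_right] at h5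
      exact (N.smul_mem_iff hb).1 h4
    obtain ⟨z', hz1, hz2⟩ := exists_non_perp hh h2 hdim hzz
    have hle : perpSp hh z ≤ N := span_non hh h2 (z := z') hz1 hz2 key
    intro y _
    have h3 := hle (sub_mem_perp hh hzz y)
    have h4 := N.add_mem h3 (N.smul_mem (h y z / h z z) hzN)
    have h5 : y - (h y z / h z z) • z + (h y z / h z z) • z = y := by module
    rw [h5] at h4
    exact h4
  · exact span_non hh h2 (z := z0) Submodule.mem_top hz0
      fun y _ hy => mem_of_units3 hh hid h2 hc N HN hy

end Pool.Agent.Helper92.OR
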